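import Pool.Agent.Lib_helper31.LK.DefsP
import Pool.Agent.Lib_helper41.LSP2.Defs2
import Pool.Agent.Lib_helper41.LVB.Defs

/-!
# LSP3, part E: smooth quadratic twists against short Hecke vectors. Definitions.

`χ` is a primitive quadratic character mod `q`. A vector `x` stands for the Hecke polynomial
`MX E x la = ∑ x_e λ(e) / √e`; `HP` is the vector of the product of two of them. The random model
`IsST I P` (independent Sato-Tate variables `x p`) serves to describe the values of multiplicative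
functionals.
-/

set_option autoImplicit false

namespace Pool.Agent.LE

open Complex MeasureTheory ProbabilityTheory
open Pool.Agent.LSP (tau MX CC CB sg1 wX)
open Pool.Agent.KSL (WW)
open Pool.Agent.LEV (Uu Um)
open Pool.Agent.LVB (IsST el)
open Pool.Agent.LK (Qe V PQ MW)

/-- the vector is supported on `[1, E]` -/
def SuppIn (E : ℕ) (x : ℕ → ℝ) : Prop := ∀ e, x e ≠ 0 → 1 ≤ e ∧ e ≤ E

/-- the product of two Hecke vectors (for vectors supported on `[1, E]`) -/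
noncomputable def HP (E : ℕ) (x y : ℕ → ℝ) (n : ℕ) : ℝ :=
  ∑ j ∈ Finset.Icc 1 E, (1 / (j : ℝ)) * ∑ p ∈ n.divisorsAntidiagonal, x (j * p.1) * y (j * p.2)

/-- `q ↦ (functional at δ_e * δ_k)` -/
noncomputable def TK (q : ℕ → ℂ) (k e : ℕ) : ℂ :=
  ∑ d ∈ (Nat.gcd e k).divisors, (1 / (d : ℂ)) * q (e * k / d ^ 2)

/-- the twisted Dirichlet series `∑ ξ(e) q(δ_e * δ_k)` -/
noncomputable def TS (ξ q : ℕ → ℂ) (k : ℕ) : ℂ := ∑' e : ℕ, ξ e * TK q k e

/-- the expectation with the normalised weights `w_p` -/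
noncomputable def EW (P : Measure (ℕ → ℝ)) (I : Finset ℕ) (w : ℕ → ℝ → ℂ)
    (F : (ℕ → ℝ) → ℝ) : ℂ :=
  (∫ x, (F x : ℂ) * ∏ p ∈ I, w p (x p) ∂P) / ∏ p ∈ I, ∫ x, w p (x p) ∂P

variable {q : ℕ} [NeZero q]

/-- the completely multiplicative function `χ(e) e^{-s}` -/
noncomputable def xi (χ : DirichletCharacter ℂ q) (s : ℂ) (e : ℕ) : ℂ := χ e * (e : ℂ) ^ (-s)

/-- the local weights of the functional `Qe χ · s r` -/
noncomputable def wQ (χ : DirichletCharacter ℂ q) (r s : ℂ) (p : ℕ) (x : ℝ) : ℂ :=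
  el p ((p : ℂ) ^ (-r)) x ^ 2 * el p (χ p * (p : ℂ) ^ (-s)) x

/-- the local weights of the quadratic form -/
noncomputable def w2 (χ : DirichletCharacter ℂ q) (r s z : ℂ) (p : ℕ) (x : ℝ) : ℂ :=
  wQ χ r s p x * el p (χ p * (p : ℂ) ^ (-z)) x

/-- the local weights of the linear functional -/
noncomputable def w1 (χ : DirichletCharacter ℂ q) (z : ℂ) (p : ℕ) (x : ℝ) : ℂ :=
  el p 1 x * el p (χ p * (p : ℂ) ^ (-z)) x

/-- `∏_{p ∣ q} (1 - p^{-s}) ζ(s)` -/
noncomputable def zq (q : ℕ) (s : ℂ) : ℂ :=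
  (∏ p ∈ q.primeFactors, (1 - (p : ℂ) ^ (-s))) * riemannZeta s

/-- `(s - 1) ζ(s)` without the singularity -/
noncomputable def z1 (s : ℂ) : ℂ := Function.update (fun s => (s - 1) * riemannZeta s) 1 1 s

/-- `(s - 1) zq q s` without the singularity -/
noncomputable def zq1 (q : ℕ) (s : ℂ) : ℂ := (∏ p ∈ q.primeFactors, (1 - (p : ℂ) ^ (-s))) * z1 s

/-- the truncated smooth twist -/
noncomputable def xv (χ : DirichletCharacter ℂ q) (i : ℕ) (Y : ℝ) (E : ℕ) (e : ℕ) : ℝ :=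
  if 1 ≤ e ∧ e ≤ E then (χ e).re * V i (e / Y) else 0

/-- the regular part of the integrand of the quadratic form -/
noncomputable def H2 (χ : DirichletCharacter ℂ q) (P : Measure (ℕ → ℝ)) (I : Finset ℕ) (K : ℕ)
    (B : ℕ → ℝ) (Y : ℝ) (r s z : ℂ) : ℂ :=
  ((Y / (2 * Real.pi) : ℝ) : ℂ) ^ z * Complex.Gamma (1 + z) *
    DirichletCharacter.LFunction χ (1 + r + z) ^ 2 * zq1 q (1 + s + z) / zq q (2 + 2 * r + s + z) *
      EW P I (w2 χ r s z) (MX K B)

/-- the regular part of the integrand of the linear functional -/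
noncomputable def H1 (χ : DirichletCharacter ℂ q) (P : Measure (ℕ → ℝ)) (I : Finset ℕ) (K : ℕ)
    (B : ℕ → ℝ) (Y : ℝ) (z : ℂ) : ℂ :=
  ((Y / (2 * Real.pi) : ℝ) : ℂ) ^ z * Complex.Gamma (1 + z) *
    DirichletCharacter.LFunction χ (1 + z) * EW P I (w1 χ z) (MX K B)

end Pool.Agent.LE
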